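import Mathlib
import Pool.Agent.R738.PF.Rigid
import Pool.Agent.Y896.HS.B

set_option autoImplicit false

/-!
# Property (F) holds for all compact symmetric (and all compact homogeneous) spaces

A compact homogeneous space is `X = G/K` with `G` a compact Lie group, i.e. (Peter–Weyl) a closed
subgroup of some `U(n)`, and `K` a closed subgroup of `G`, with a `G`-invariant Riemannian metric.
In particular `G/K` can be any compact symmetric space, of any rank.
-/

open Matrix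
open scoped Matrix.Norms.Frobenius ContDiff

namespace Pool.Agent.Results.MP_646617_gt.PropertyFHolds

/-- complex `n × n` matrices -/
abbrev Mat (n : ℕ) := Matrix (Fin n) (Fin n) ℂ

variable {n k : ℕ}

/-- The Lie algebra of a subgroup `G` of `U(n)`: the matrices `X` with `exp (tX) ∈ G` for all real
`t`. -/
def LieAlg (G : Subgroup (unitaryGroup (Fin n) ℂ)) : Set (Mat n) :=
  {X | ∀ t : ℝ, ∃ u ∈ G, ((u : unitaryGroup (Fin n) ℂ) : Mat n) = NormedSpace.exp (t • X)}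

/-- A `G`-invariant Riemannian metric on `G/K`, given by an orthonormal basis `X` of an
`Ad(K)`-invariant complement of the Lie algebra of `K` in the Lie algebra of `G`; the inner product
is `Ad(K)`-invariant, i.e. the matrices of `Ad(h)`, `h ∈ K`, with respect to the basis are
orthogonal.  (As `K` is compact, all `G`-invariant metrics on `G/K` are given in this way.) -/
structure InvMetric (G K : Subgroup (unitaryGroup (Fin n) ℂ)) (k : ℕ) where
  /-- the orthonormal basis -/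
  X : Fin k → Mat n
  mem : ∀ i, X i ∈ LieAlg G
  indep : LinearIndependent ℝ X
  disj : ∀ Y ∈ Submodule.span ℝ (Set.range X), Y ∈ LieAlg K → Y = 0
  sup : ∀ Z ∈ LieAlg G, ∃ Y ∈ Submodule.span ℝ (Set.range X), Z - Y ∈ LieAlg K
  inv : ∀ h ∈ K, ∃ O ∈ Matrix.orthogonalGroup (Fin k) ℝ, ∀ j,
    (h : Mat n) * X j * star (h : Mat n) = ∑ i, O i j • X i

/-- The homogeneous space `X = G/K`; the element `γ` of `G` maps the point `xK` to `γxK`. -/
abbrev HomSpace (G K : Subgroup (unitaryGroup (Fin n) ℂ)) : Type := ↥G ⧸ K.subgroupOf G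

/-- The matrix of an element of `G`. -/
abbrev toMat {G : Subgroup (unitaryGroup (Fin n) ℂ)} (x : G) : Mat n :=
  ((x : unitaryGroup (Fin n) ℂ) : Mat n)

/-- The value at the matrix `x` of the Laplace–Beltrami operator `Δ f = - ∑ Xᵢ² f` of `(G/K, g)`,
where `(Xᵢ f)(x) = d/dt f (x exp (t Xᵢ))` (compact groups are unimodular, so this is the
Laplace–Beltrami operator on the functions on `G/K`, lifted to `G`). -/
noncomputable def laplacian {G K : Subgroup (unitaryGroup (Fin n) ℂ)} (g : InvMetric G K k)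
    (f : Mat n → ℝ) (x : Mat n) : ℝ :=
  -∑ i, iteratedDeriv 2 (fun t : ℝ => f (x * NormedSpace.exp (t • g.X i))) 0

/-- `u` is a smooth function on `G/K` with `Δ u = lam u`. The lift of `u` to `G` is the restriction
of a smooth function `f` of the matrix. -/
def IsEigenfunction {G K : Subgroup (unitaryGroup (Fin n) ℂ)} (g : InvMetric G K k) (lam : ℝ)
    (u : HomSpace G K → ℝ) : Prop :=
  ∃ f : Mat n → ℝ, ContDiff ℝ ∞ f ∧ (∀ x : G, f (toMat x) = u (QuotientGroup.mk x)) ∧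
    ∀ x : G, laplacian g f (toMat x) = lam * f (toMat x)

/-- The `Γ`-invariant eigenfunctions of `X = G/K` with an eigenvalue `≤ Lam`, i.e. the
eigenfunctions of the orbifold `Γ \ X` with an eigenvalue `≤ Lam`. -/
def eigenfunctions {G K : Subgroup (unitaryGroup (Fin n) ℂ)} (g : InvMetric G K k)
    (Γ : Subgroup G) (Lam : ℝ) : Set (HomSpace G K → ℝ) :=
  {u | (∀ γ ∈ Γ, ∀ x : G, u (QuotientGroup.mk (γ * x)) = u (QuotientGroup.mk x)) ∧
    ∃ lam ≤ Lam, IsEigenfunction g lam u}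

/-- The counting function of the spectrum of the orbifold `Γ \ X`: the number of eigenvalues
`≤ Lam`, counted with multiplicities. -/
noncomputable def count {G K : Subgroup (unitaryGroup (Fin n) ℂ)} (g : InvMetric G K k)
    (Γ : Subgroup G) (Lam : ℝ) : ℕ :=
  Module.finrank ℝ (Submodule.span ℝ (eigenfunctions g Γ Lam))

/-- The `j`-th eigenvalue `λ_j (Γ \ X)`, `j = 0, 1, 2, …`, of the orbifold `Γ \ X`, where the
eigenvalues are listed in nondecreasing order, with multiplicities. -/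
noncomputable def eigenvalue {G K : Subgroup (unitaryGroup (Fin n) ℂ)} (g : InvMetric G K k)
    (Γ : Subgroup G) (j : ℕ) : ℝ :=
  sInf {Lam : ℝ | j < count g Γ Lam}

/-- `Γ₁ \ X` and `Γ₂ \ X` are isospectral. -/
def Isospectral {G K : Subgroup (unitaryGroup (Fin n) ℂ)} (g : InvMetric G K k)
    (Γ₁ Γ₂ : Subgroup G) : Prop :=
  ∀ j : ℕ, eigenvalue g Γ₁ j = eigenvalue g Γ₂ j

/-- Property (F): for every `ε > 0` there is an `N` such that for all finite subgroups `Γ₁, Γ₂` of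
`G` with `vol (Γᵢ \ X) / vol X = 1 / |Γᵢ| > ε`, `Γ₁ \ X` and `Γ₂ \ X` are isospectral if and only if
their first `N` eigenvalues `λ_0, …, λ_{N-1}` agree. -/
def PropertyF {G K : Subgroup (unitaryGroup (Fin n) ℂ)} (g : InvMetric G K k) : Prop :=
  ∀ ε : ℝ, 0 < ε → ∃ N : ℕ, ∀ Γ₁ Γ₂ : Subgroup G, Finite Γ₁ → Finite Γ₂ →
    ε < 1 / (Nat.card Γ₁ : ℝ) → ε < 1 / (Nat.card Γ₂ : ℝ) →
    (Isospectral g Γ₁ Γ₂ ↔ ∀ j < N, eigenvalue g Γ₁ j = eigenvalue g Γ₂ j)

section Proof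

variable {G K : Subgroup (unitaryGroup (Fin n) ℂ)}

theorem toMat_mul (x y : G) : toMat (x * y) = toMat x * toMat y := rfl

theorem toMat_inv (x : G) : toMat (x⁻¹) = star (toMat x) := rfl

theorem toMat_inj {x y : G} (h : toMat x = toMat y) : x = y := by
  apply Subtype.ext
  apply Subtype.ext
  exact h

/-- the action of `y` on `G/K` -/
def tr (K : Subgroup (unitaryGroup (Fin n) ℂ)) (y : G) (p : HomSpace G K) : HomSpace G K :=
  Quotient.liftOn' p (fun x => (QuotientGroup.mk (y * x) : HomSpace G K)) (by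
    intro a b hab
    rw [QuotientGroup.leftRel_apply] at hab
    rw [QuotientGroup.eq, _root_.mul_inv_rev]
    have e : a⁻¹ * y⁻¹ * (y * b) = a⁻¹ * b := by group
    rwa [e])

theorem tr_mk (y x : G) : tr K y (QuotientGroup.mk x) = QuotientGroup.mk (y * x) := rfl

theorem tr_tr (y z : G) (p : HomSpace G K) : tr K y (tr K z p) = tr K (y * z) p := by
  obtain ⟨x, rfl⟩ := QuotientGroup.mk_surjective p
  rw [tr_mk, tr_mk, tr_mk, _root_.mul_assoc]

theorem tr_one (p : HomSpace G K) : tr K (1 : G) p = p := by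
  obtain ⟨x, rfl⟩ := QuotientGroup.mk_surjective p
  rw [tr_mk, _root_.one_mul]

theorem eig_trans (g : InvMetric G K k) {lam : ℝ} {u : HomSpace G K → ℝ}
    (hu : IsEigenfunction g lam u) (y : G) : IsEigenfunction g lam (fun p => u (tr K y p)) := by
  obtain ⟨f, hf, hfu, hfl⟩ := hu
  refine ⟨fun A => f (toMat y * A), hf.comp (contDiff_const.mul contDiff_id), fun x => ?_,
    fun x => ?_⟩
  · exact hfu (y * x)
  · have h1 := hfl (y * x)
    rw [toMat_mul] at h1
    rw [← h1]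
    simp only [laplacian, Matrix.mul_assoc]

theorem mem_trans (g : InvMetric G K k) {Γ Γ' : Subgroup G} {y : G} {Lam : ℝ}
    (h : ∀ γ ∈ Γ, y * γ * y⁻¹ ∈ Γ') {u : HomSpace G K → ℝ} (hu : u ∈ eigenfunctions g Γ' Lam) :
    (fun p => u (tr K y p)) ∈ eigenfunctions g Γ Lam := by
  obtain ⟨h1, lam, hlam, h2⟩ := hu
  refine ⟨fun γ hγ x => ?_, lam, hlam, eig_trans g h2 y⟩
  change u (QuotientGroup.mk (y * (γ * x))) = u (QuotientGroup.mk (y * x))
  have e : y * (γ * x) = (y * γ * y⁻¹) * (y * x) := by group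
  rw [e]
  exact h1 _ (h γ hγ) _

theorem count_conj (g : InvMetric G K k) {Γ Γ' : Subgroup G} {y : G}
    (h : ∀ γ, γ ∈ Γ ↔ y * γ * y⁻¹ ∈ Γ') (Lam : ℝ) : count g Γ Lam = count g Γ' Lam := by
  let e : Equiv.Perm (HomSpace G K) :=
    { toFun := tr K y
      invFun := tr K y⁻¹
      left_inv := fun p => by rw [tr_tr, inv_mul_cancel, tr_one]
      right_inv := fun p => by rw [tr_tr, mul_inv_cancel, tr_one] }
  let T : (HomSpace G K → ℝ) ≃ₗ[ℝ] (HomSpace G K → ℝ) := LinearEquiv.funCongrLeft ℝ ℝ e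
  have himg : (T : (HomSpace G K → ℝ) →ₗ[ℝ] (HomSpace G K → ℝ)) '' eigenfunctions g Γ' Lam =
      eigenfunctions g Γ Lam := by
    ext u
    constructor
    · rintro ⟨v, hv, rfl⟩
      exact mem_trans g (fun γ hγ => (h γ).1 hγ) hv
    · intro hu
      have h1 : ∀ γ ∈ Γ', y⁻¹ * γ * (y⁻¹)⁻¹ ∈ Γ := by
        intro γ hγ
        rw [h]
        have e : y * (y⁻¹ * γ * (y⁻¹)⁻¹) * y⁻¹ = γ := by group
        rwa [e]
      refine ⟨_, mem_trans g h1 hu, ?_⟩
      change (fun p => u (tr K y⁻¹ (tr K y p))) = u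
      funext p
      rw [tr_tr, inv_mul_cancel, tr_one]
  rw [count, count, ← himg, ← Submodule.map_span]
  exact LinearEquiv.finrank_map_eq T _

theorem eigenvalue_conj (g : InvMetric G K k) {Γ Γ' : Subgroup G} {y : G}
    (h : ∀ γ, γ ∈ Γ ↔ y * γ * y⁻¹ ∈ Γ') : eigenvalue g Γ = eigenvalue g Γ' := by
  funext j
  simp only [eigenvalue, count_conj g h]

open Pool.Agent.W544.EG (Gs isG)

theorem finite_spectra (hG : IsClosed (G : Set (unitaryGroup (Fin n) ℂ))) (g : InvMetric G K k)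
    (m : ℕ) : {f : ℕ → ℝ | ∃ Γ : Subgroup G, Finite Γ ∧ Nat.card Γ ≤ m ∧ f = eigenvalue g Γ}.Finite := by
  obtain ⟨L, hL⟩ := Pool.Agent.Y896.HS.exists_lie hG
  have hIsG := isG hG hL
  -- the spectra of the groups with a given multiplication table
  have key : ∀ (l : ℕ) (t : Fin (l + 1) → Equiv.Perm (Fin (l + 1))),
      {f : ℕ → ℝ | ∃ (Γ : Subgroup G) (e : Fin (l + 1) ≃ Γ),
        (∀ i j, e i * e j = e (t i j)) ∧ f = eigenvalue g Γ}.Finite := by
    intro l t
    obtain ⟨S, hSf, hSG, hS⟩ := Pool.Agent.R738.PF.finite_classes hIsG (Fin (l + 1)) t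
    refine Set.Finite.subset (hSf.biUnion (t := fun ρ => {f : ℕ → ℝ | ∃ (Γ : Subgroup G)
      (e : Fin (l + 1) ≃ Γ) (h : G), (∀ i, star (toMat h) * toMat (e i : G) * toMat h = ρ i) ∧
        f = eigenvalue g Γ}) fun ρ _ => Set.Subsingleton.finite ?_) ?_
    · rintro _ ⟨Γ₁, e₁, h₁, H₁, rfl⟩ _ ⟨Γ₂, e₂, h₂, H₂, rfl⟩
      have hconj : ∀ i, (e₂ i : G) = (h₂ * h₁⁻¹) * (e₁ i : G) * (h₂ * h₁⁻¹)⁻¹ := by
        intro i
        have h3 : toMat (h₁⁻¹ * (e₁ i : G) * h₁) = toMat (h₂⁻¹ * (e₂ i : G) * h₂) :=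
          (H₁ i).trans (H₂ i).symm
        have h4 := toMat_inj h3
        calc (e₂ i : G) = h₂ * (h₂⁻¹ * (e₂ i : G) * h₂) * h₂⁻¹ := by group
          _ = h₂ * (h₁⁻¹ * (e₁ i : G) * h₁) * h₂⁻¹ := by rw [h4]
          _ = _ := by group
      refine eigenvalue_conj g (y := h₂ * h₁⁻¹) fun γ => ⟨fun hγ => ?_, fun hγ => ?_⟩
      · have h3 := hconj (e₁.symm ⟨γ, hγ⟩)
        rw [Equiv.apply_symm_apply] at h3
        rw [← h3]
        exact (e₂ _).2
      · have h3 := hconj (e₂.symm ⟨_, hγ⟩)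
        rw [Equiv.apply_symm_apply] at h3
        have h4 : γ = e₁ (e₂.symm ⟨_, hγ⟩) := mul_left_cancel (mul_right_cancel h3)
        rw [h4]
        exact (e₁ _).2
    · rintro _ ⟨Γ, e, he, rfl⟩
      obtain ⟨ρ, hρ, h, hh, H⟩ := hS (fun i => toMat (e i : G))
        (fun i => ⟨_, (e i : G).2, rfl⟩) (fun i j => by
          rw [← toMat_mul, ← he]; rfl)
      obtain ⟨h', hh', rfl⟩ := hh
      simp only [Set.mem_iUnion]
      exact ⟨ρ, hρ, Γ, e, ⟨h', hh'⟩, H, rfl⟩
  have hfin : (⋃ l : Fin (m + 1), ⋃ t : Fin (l + 1) → Equiv.Perm (Fin (l + 1)),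
      {f : ℕ → ℝ | ∃ (Γ : Subgroup G) (e : Fin (l + 1) ≃ Γ),
        (∀ i j, e i * e j = e (t i j)) ∧ f = eigenvalue g Γ}).Finite :=
    Set.finite_iUnion fun l => Set.finite_iUnion fun t => key l t
  refine hfin.subset ?_
  rintro _ ⟨Γ, hΓ, hcard, rfl⟩
  have hpos : 0 < Nat.card Γ := Nat.card_pos
  obtain ⟨l, hl⟩ : ∃ l, Nat.card Γ = l + 1 := ⟨Nat.card Γ - 1, by omega⟩
  have e : Fin (l + 1) ≃ Γ := (finCongr hl.symm).trans (Finite.equivFin Γ).symm
  simp only [Set.mem_iUnion]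
  refine ⟨⟨l, by omega⟩, fun i => (e.trans (Equiv.mulLeft (e i))).trans e.symm, Γ, e, fun i j => ?_,
    rfl⟩
  simp

theorem separate {T : Set (ℕ → ℝ)} (hT : T.Finite) :
    ∃ N : ℕ, ∀ f₁ ∈ T, ∀ f₂ ∈ T, (∀ j < N, f₁ j = f₂ j) → f₁ = f₂ := by
  have h : ∀ᶠ N in Filter.atTop, ∀ f₁ ∈ T, ∀ f₂ ∈ T, (∀ j < N, f₁ j = f₂ j) → f₁ = f₂ := by
    rw [Filter.eventually_all_finite hT]
    intro f₁ _
    rw [Filter.eventually_all_finite hT]
    intro f₂ _
    by_cases hf : f₁ = f₂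
    · exact Filter.Eventually.of_forall fun _ _ => hf
    · obtain ⟨j, hj⟩ := Function.ne_iff.1 hf
      filter_upwards [Filter.eventually_gt_atTop j] with N hN h1
      exact absurd (h1 j hN) hj
  exact h.exists

end Proof

/-- **Theorem.** Let `G` be a compact Lie group (a closed subgroup of `U(n)`, not necessarily
connected), `K` a closed subgroup of `G`, and `g` a `G`-invariant Riemannian metric on `X = G/K`.
Then `X` has property (F). In particular every compact symmetric space has property (F). -/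
theorem result : ∀ (n k : ℕ) (G K : Subgroup (unitaryGroup (Fin n) ℂ)),
    IsClosed (G : Set (unitaryGroup (Fin n) ℂ)) → IsClosed (K : Set (unitaryGroup (Fin n) ℂ)) →
    K ≤ G → ∀ g : InvMetric G K k, PropertyF g := by
  intro n k G K hG _ _ g ε hε
  obtain ⟨N, hN⟩ := separate (finite_spectra hG g ⌈1 / ε⌉₊)
  refine ⟨N, fun Γ₁ Γ₂ hΓ₁ hΓ₂ h₁ h₂ => ⟨fun h j _ => h j, fun h j => ?_⟩⟩
  have hcard : ∀ Γ : Subgroup G, Finite Γ → ε < 1 / (Nat.card Γ : ℝ) →
      Nat.card Γ ≤ ⌈1 / ε⌉₊ := by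
    intro Γ hΓ h
    have hpos : (0 : ℝ) < Nat.card Γ := by exact_mod_cast Nat.card_pos
    have h3 : (Nat.card Γ : ℝ) < 1 / ε := by
      rw [lt_div_iff₀ hpos] at h
      rw [lt_div_iff₀ hε]
      linarith
    exact_mod_cast h3.le.trans (Nat.le_ceil _)
  exact congrFun (hN _ ⟨Γ₁, hΓ₁, hcard Γ₁ hΓ₁ h₁, rfl⟩ _ ⟨Γ₂, hΓ₂, hcard Γ₂ hΓ₂ h₂, rfl⟩ h) j

end Pool.Agent.Results.MP_646617_gt.PropertyFHolds
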